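import Pool.Agent.Helper27.BG.St2
import Pool.Agent.Helper28.PC.Mert

/-! Module MER of project BG (MP_3ec731_nt): Mertens' product, upper bound. -/

set_option autoImplicit false

noncomputable section

namespace Pool.Agent.Helper32.BG

open Finset
open Pool.Agent.Helper27.BG

theorem prod_Icc (N : ℕ) (hN : 1 ≤ N) :
    ∏ k ∈ Icc 2 N, (1 - 1 / (k : ℝ) ^ 2) = ((N : ℝ) + 1) / (2 * N) := by
  induction N, hN using Nat.le_induction with
  | base => simp
  | succ n hn ih =>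
    rw [← Finset.insert_Icc_right_eq_Icc_add_one (by omega), Finset.prod_insert (by simp), ih]
    have h0 : (n : ℝ) ≠ 0 := by positivity
    have h1 : (n : ℝ) + 1 ≠ 0 := by positivity
    push_cast
    field_simp
    ring

theorem prod_ge (S : Finset ℕ) (hS : ∀ p ∈ S, 2 ≤ p) :
    (1 / 2 : ℝ) ≤ ∏ p ∈ S, (1 - 1 / (p : ℝ) ^ 2) := by
  obtain ⟨N, hN⟩ : ∃ N : ℕ, ∀ p ∈ S, p ≤ N := ⟨S.sup id, fun p hp => Finset.le_sup (f := id) hp⟩
  have hsub : S ⊆ Icc 2 (N + 1) := fun p hp => mem_Icc.mpr ⟨hS p hp, (hN p hp).trans (by omega)⟩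
  have hf : ∀ k : ℕ, 2 ≤ k → 0 ≤ 1 - 1 / (k : ℝ) ^ 2 ∧ 1 - 1 / (k : ℝ) ^ 2 ≤ 1 := by
    intro k hk
    have hk' : (2 : ℝ) ≤ k := by exact_mod_cast hk
    have h1 : 1 / (k : ℝ) ^ 2 ≤ 1 := by
      rw [div_le_one (by positivity)]
      nlinarith
    have h2 : 0 ≤ 1 / (k : ℝ) ^ 2 := by positivity
    constructor <;> linarith
  calc (1 / 2 : ℝ) ≤ (((N + 1 : ℕ) : ℝ) + 1) / (2 * ((N + 1 : ℕ) : ℝ)) := by
        rw [div_le_div_iff₀ (by norm_num) (by positivity)]
        linarith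
    _ = ∏ k ∈ Icc 2 (N + 1), (1 - 1 / (k : ℝ) ^ 2) := (prod_Icc (N + 1) (by omega)).symm
    _ ≤ ∏ p ∈ S, (1 - 1 / (p : ℝ) ^ 2) :=
        Finset.prod_le_prod_of_subset_of_le_one hsub
          (fun k hk => (hf k (mem_Icc.mp hk).1).1) (fun k hk _ => (hf k (mem_Icc.mp hk).1).2)

/-- the totient through the primes -/
theorem tot (W : ℕ) (hW : 0 < W) :
    (W.totient : ℝ) / W = ∏ p ∈ W.primeFactors, (1 - 1 / (p : ℝ)) := by
  have h := Nat.totient_eq_mul_prod_factors W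
  have h' : (W.totient : ℝ) = W * ∏ p ∈ W.primeFactors, (1 - (p : ℝ)⁻¹) := by
    have h2 := congrArg (fun q : ℚ => (q : ℝ)) h
    push_cast at h2
    exact h2
  have hW' : (W : ℝ) ≠ 0 := by positivity
  rw [h', mul_div_cancel_left₀ _ hW']
  simp [one_div]

/-- MER. -/
theorem hMer : StMer := by
  refine ⟨4 * Real.exp 5, by positivity, ?_⟩
  intro W hW
  obtain ⟨M₁, hM₁⟩ : ∃ M₁ : ℕ, ∀ M ≥ M₁, ((W : ℝ) + 2) ≤ (M : ℝ) ^ (2499 / 5000 : ℝ) := by
    have ht : Filter.Tendsto (fun M : ℕ => (M : ℝ) ^ (2499 / 5000 : ℝ)) Filter.atTop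
        Filter.atTop := (tendsto_rpow_atTop (by norm_num)).comp tendsto_natCast_atTop_atTop
    have := (ht.eventually_ge_atTop ((W : ℝ) + 2))
    exact Filter.eventually_atTop.mp this
  refine ⟨M₁ + 2, fun M hM => ?_⟩
  have hy := hM₁ M (by omega)
  set y : ℝ := (M : ℝ) ^ (2499 / 5000 : ℝ) with hydef
  have hM1 : (1 : ℝ) ≤ M := by exact_mod_cast (by omega : 1 ≤ M)
  have hMy : y ≤ M := by
    calc y ≤ (M : ℝ) ^ (1 : ℝ) := Real.rpow_le_rpow_of_exponent_le hM1 (by norm_num)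
      _ = M := Real.rpow_one _
  have hy0 : 0 ≤ y := by positivity
  set n : ℕ := ⌊y⌋₊ with hn
  have hnW : W + 2 ≤ n := by
    rw [hn, Nat.le_floor_iff hy0]
    push_cast
    exact hy
  have hprod : ∏ i, (1 + 1 / (pw W M i : ℝ)) = ∏ p ∈ Pw W M, (1 + 1 / (p : ℝ)) := by
    have := Finset.prod_coe_sort (Pw W M) (fun p : ℕ => (1 + 1 / (p : ℝ)))
    exact this
  have hPw : Pw W M = (n.primesLE).filter (fun p => ¬ p ∣ W) := by
    ext p
    simp only [Pw, mem_filter, mem_range, Nat.mem_primesLE]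
    constructor
    · rintro ⟨h1, h2, h3, h4⟩
      exact ⟨⟨Nat.le_floor h3, h2⟩, h4⟩
    · rintro ⟨⟨h1, h2⟩, h4⟩
      have h5 : (p : ℝ) ≤ y := (Nat.le_floor_iff hy0).mp h1
      refine ⟨?_, h2, h5, h4⟩
      have : (p : ℝ) ≤ M := h5.trans hMy
      have : p ≤ M := by exact_mod_cast this
      omega
  have hPF : W.primeFactors = (n.primesLE).filter (fun p => p ∣ W) := by
    ext p
    simp only [Nat.mem_primeFactors, mem_filter, Nat.mem_primesLE]
    constructor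
    · rintro ⟨h1, h2, h3⟩
      exact ⟨⟨(Nat.le_of_dvd hW h2).trans (by omega), h1⟩, h2⟩
    · rintro ⟨⟨h1, h2⟩, h3⟩
      exact ⟨h2, h3, by omega⟩
  have hsplit : (∏ p ∈ W.primeFactors, (1 + 1 / (p : ℝ))) * ∏ p ∈ Pw W M, (1 + 1 / (p : ℝ)) =
      ∏ p ∈ n.primesLE, (1 + 1 / (p : ℝ)) := by
    rw [hPw, hPF]
    exact Finset.prod_filter_mul_prod_filter_not _ _ _
  have hlogn : 0 < Real.log n := Real.log_pos (by exact_mod_cast (by omega : 1 < n))
  have hup : ∏ p ∈ n.primesLE, (1 + 1 / (p : ℝ)) ≤ Real.exp 5 * Real.log n := by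
    calc ∏ p ∈ n.primesLE, (1 + 1 / (p : ℝ)) ≤ ∏ p ∈ n.primesLE, Real.exp (1 / (p : ℝ)) := by
          refine Finset.prod_le_prod (fun p _ => by positivity) (fun p _ => ?_)
          have := Real.add_one_le_exp (1 / (p : ℝ))
          linarith
      _ = Real.exp (∑ p ∈ n.primesLE, (1 : ℝ) / p) := (Real.exp_sum _ _).symm
      _ ≤ Real.exp (Real.log (Real.log n) + 5) :=
          Real.exp_le_exp.mpr (Pool.Agent.Helper28.PC.sum_inv_le (by omega))
      _ = Real.exp 5 * Real.log n := by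
          rw [Real.exp_add, Real.exp_log hlogn]; ring
  have hlogy : Real.log n ≤ 2 * Real.log (RR M) := by
    have h1 : (n : ℝ) ≤ y := Nat.floor_le hy0
    have hn0 : (0 : ℝ) < n := by exact_mod_cast (by omega : 0 < n)
    have h2 : Real.log n ≤ Real.log y := Real.log_le_log hn0 h1
    have h3 : Real.log y = 2 * Real.log (RR M) := by
      rw [hydef, RR, Real.log_rpow (by linarith), Real.log_rpow (by linarith)]
      ring
    linarith
  have hlow : (1 / 2 : ℝ) ≤ (∏ p ∈ W.primeFactors, (1 + 1 / (p : ℝ))) * ((W.totient : ℝ) / W) := by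
    rw [tot W hW, ← Finset.prod_mul_distrib]
    have := prod_ge W.primeFactors (fun p hp => (Nat.prime_of_mem_primeFactors hp).two_le)
    refine this.trans (le_of_eq (Finset.prod_congr rfl fun p _ => ?_))
    ring
  set A := ∏ p ∈ W.primeFactors, (1 + 1 / (p : ℝ)) with hA
  set P := ∏ p ∈ Pw W M, (1 + 1 / (p : ℝ)) with hP
  have hP0 : 0 ≤ P := Finset.prod_nonneg fun p _ => by positivity
  have hT0 : 0 ≤ (W.totient : ℝ) / W := by positivity
  rw [hprod, SS]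
  have h1 : A * P ≤ Real.exp 5 * (2 * Real.log (RR M)) := by
    rw [hsplit]
    exact hup.trans (mul_le_mul_of_nonneg_left hlogy (Real.exp_pos 5).le)
  have h2 : (1 / 2 : ℝ) * P ≤ (A * ((W.totient : ℝ) / W)) * P :=
    mul_le_mul_of_nonneg_right hlow hP0
  have h3 : (A * P) * ((W.totient : ℝ) / W) ≤
      Real.exp 5 * (2 * Real.log (RR M)) * ((W.totient : ℝ) / W) :=
    mul_le_mul_of_nonneg_right h1 hT0
  nlinarith [h2, h3]

end Pool.Agent.Helper32.BG
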